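import Pool.Agent.H75.ERG.Targets
import Pool.Agent.H42.EN.U2

/-!
# MP_009700_an, row GLN: derivative of the mollification of a function which is Lipschitz in the
direction `w`
-/

set_option autoImplicit false

namespace Pool.Agent.H11.EG

open MeasureTheory Set Metric Filter Topology Pool.Agent.H93.BL
open Pool.Agent.H93.EN (av md rf chi gchi Bd Ml Nl Inv Agr sg VV Chart LS Phi)
open Pool.Agent.H93.EG (InvG Sm gN hN nrm)
open Pool.Agent.H75.ERG
open Pool.Agent.H42.EN (bint lin_aux)

theorem gln (hCH : Pool.Agent.H93.EN.T_CH) : T_GLN := by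
  intro Φ hΦ δ x w M hδ hw hM hlip
  obtain ⟨-, -, -, -, C, hC, hch⟩ := hCH
  obtain ⟨hcd, hcs, hb, hz, hint1, -, hgc, hgb, hgz⟩ := hch δ hδ
  obtain ⟨hm, hb01, R', hR'⟩ := hΦ
  have hφm : Measurable fun y => Φ y w := hm.comp (measurable_id.prodMk measurable_const)
  have hlin : ∀ z, fderiv ℝ (chi δ) z w = (gchi δ z * (starRingEnd ℂ) w).re := fun z =>
    lin_aux (fderiv ℝ (chi δ) z) w
  have hdiff : Differentiable ℝ (chi δ) := hcd.differentiable (by simp)
  have hcont : Continuous (chi δ) := hcd.continuous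
  have hwb : ∀ z, |fderiv ℝ (chi δ) z w| ≤ C / δ ^ 3 := by
    intro z
    rw [hlin]
    refine (Complex.abs_re_le_norm _).trans ?_
    rw [norm_mul, RCLike.norm_conj, hw, mul_one]
    exact hgb z
  have hfc : Continuous fun z => fderiv ℝ (chi δ) z w := by
    have e : (fun z => fderiv ℝ (chi δ) z w) = fun z => (gchi δ z * (starRingEnd ℂ) w).re :=
      funext hlin
    rw [e]
    exact Complex.continuous_re.comp (hgc.mul continuous_const)
  have hΦ1 : ∀ y, |Φ y w| ≤ 1 := fun y => by
    rw [abs_of_nonneg (hb01 y w).1]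
    exact (hb01 y w).2
  -- the function of `t`
  have hcb : ∀ z, |chi δ z| ≤ C / δ ^ 2 := fun z => by
    rw [abs_of_nonneg (hb z).1]
    exact (hb z).2
  have hder : HasDerivAt (fun t : ℝ => ∫ y, chi δ (x + (t : ℂ) * w - y) * Φ y w)
      (∫ y, fderiv ℝ (chi δ) (x + ((0 : ℝ) : ℂ) * w - y) w * Φ y w) 0 := by
    refine (hasDerivAt_integral_of_dominated_loc_of_deriv_le (μ := (volume : Measure ℂ))
      (F := fun (t : ℝ) (y : ℂ) => chi δ (x + (t : ℂ) * w - y) * Φ y w)
      (F' := fun (t : ℝ) (y : ℂ) => fderiv ℝ (chi δ) (x + (t : ℂ) * w - y) w * Φ y w)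
      (x₀ := 0) (s := univ) (bound := (closedBall (0 : ℂ) R').indicator fun _ => C / δ ^ 3)
      univ_mem ?_ ?_ ?_ ?_ ?_ ?_).2
    · refine Filter.Eventually.of_forall fun t => ?_
      exact ((hcont.comp (continuous_const.sub continuous_id)).measurable.mul
        hφm).aestronglyMeasurable
    · refine bint _ ((hcont.comp (continuous_const.sub continuous_id)).measurable.mul
        hφm).aestronglyMeasurable (C / δ ^ 2) R' (fun y => ?_) fun y hy => ?_
      · rw [norm_mul, Real.norm_eq_abs, Real.norm_eq_abs]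
        calc _ ≤ C / δ ^ 2 * 1 := mul_le_mul (hcb _) (hΦ1 y) (abs_nonneg _) (by positivity)
          _ = _ := mul_one _
      · change chi δ _ * Φ y w = 0
        rw [hR' y w hy, mul_zero]
    · exact ((hfc.comp (continuous_const.sub continuous_id)).measurable.mul
        hφm).aestronglyMeasurable
    · refine ae_of_all _ fun y t _ => ?_
      by_cases hy : y ∈ closedBall (0 : ℂ) R'
      · rw [indicator_of_mem hy, norm_mul, Real.norm_eq_abs, Real.norm_eq_abs]
        calc _ ≤ C / δ ^ 3 * 1 := mul_le_mul (hwb _) (hΦ1 y) (abs_nonneg _) (by positivity)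
          _ = _ := mul_one _
      · rw [indicator_of_notMem hy, hR' y w (by simpa using hy), mul_zero, norm_zero]
    · exact (integrable_indicator_iff measurableSet_closedBall).2
        (integrableOn_const measure_closedBall_lt_top.ne)
    · refine ae_of_all _ fun y t _ => ?_
      have hl : HasDerivAt (fun t : ℝ => x + (t : ℂ) * w - y) w t := by
        have h := ((Complex.ofRealCLM.hasDerivAt (x := t)).mul_const w).const_add x
        have h' := h.sub_const y
        simpa using h'
      exact ((hdiff (x + (t : ℂ) * w - y)).hasFDerivAt.comp_hasDerivAt t hl).mul_const _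
  -- integrability of the products with `chi δ (x - y)`
  have hci : ∀ g : ℂ → ℝ, Measurable g → (∀ y, |g y| ≤ 1) →
      Integrable (fun y => chi δ (x - y) * g y) := by
    intro g hg hg1
    refine bint _ ((hcont.comp (continuous_const.sub continuous_id)).measurable.mul
      hg).aestronglyMeasurable (C / δ ^ 2) (‖x‖ + δ) (fun y => ?_) fun y hy => ?_
    · change ‖chi δ (x - y) * g y‖ ≤ _
      rw [norm_mul, Real.norm_eq_abs, Real.norm_eq_abs]
      calc _ ≤ C / δ ^ 2 * 1 := mul_le_mul (hcb _) (hg1 y) (abs_nonneg _) (by positivity)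
        _ = _ := mul_one _
    · change chi δ (x - y) * g y = 0
      rw [hz (x - y) (by
        have h3 : ‖y‖ - ‖x‖ ≤ ‖x - y‖ := by
          rw [norm_sub_rev]
          exact norm_sub_norm_le y x
        linarith), zero_mul]
  have hchi1 : ∫ y, chi δ (x - y) = 1 := by
    rw [integral_sub_left_eq_self (fun y => chi δ y) volume x]
    exact hint1
  have hchii : Integrable (fun y => chi δ (x - y)) := by
    have h3 := hci (fun _ => 1) measurable_const (fun _ => by simp)
    simpa using h3
  have hbound : ∀ᶠ t : ℝ in 𝓝 0,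
      ‖(∫ y, chi δ (x + (t : ℂ) * w - y) * Φ y w) -
        ∫ y, chi δ (x + ((0 : ℝ) : ℂ) * w - y) * Φ y w‖ ≤ M * ‖t - 0‖ := by
    filter_upwards [ball_mem_nhds (0 : ℝ) hδ] with t ht
    have ht' : |t| < δ := by simpa using ht
    rw [← integral_add_right_eq_self (fun y => chi δ (x + (t : ℂ) * w - y) * Φ y w)
      ((t : ℂ) * w)]
    have e1 : (∫ y, chi δ (x + (t : ℂ) * w - (y + (t : ℂ) * w)) * Φ (y + (t : ℂ) * w) w) =
        ∫ y, chi δ (x - y) * Φ (y + (t : ℂ) * w) w := by
      refine integral_congr_ae (ae_of_all _ fun y => ?_)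
      change chi δ (x + (t : ℂ) * w - (y + (t : ℂ) * w)) * Φ (y + (t : ℂ) * w) w =
        chi δ (x - y) * Φ (y + (t : ℂ) * w) w
      have e : x + (t : ℂ) * w - (y + (t : ℂ) * w) = x - y := by ring
      rw [e]
    have e2 : (∫ y, chi δ (x + ((0 : ℝ) : ℂ) * w - y) * Φ y w) =
        ∫ y, chi δ (x - y) * Φ y w := by
      rw [Complex.ofReal_zero, zero_mul, add_zero]
    rw [e1, e2, ← integral_sub
      (hci (fun y => Φ (y + (t : ℂ) * w) w)
        (hφm.comp (measurable_id.add_const _)) (fun y => by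
          rw [abs_of_nonneg (hb01 _ w).1]
          exact (hb01 _ w).2))
      (hci (fun y => Φ y w) hφm hΦ1)]
    have h4 : ∀ᵐ y : ℂ, ‖chi δ (x - y) * Φ (y + (t : ℂ) * w) w - chi δ (x - y) * Φ y w‖ ≤
        chi δ (x - y) * (M * |t|) := by
      filter_upwards [hlip t ht'] with y hy
      rw [← mul_sub, norm_mul, Real.norm_eq_abs, Real.norm_eq_abs, abs_of_nonneg (hb _).1]
      by_cases h : δ ≤ ‖x - y‖
      · rw [hz _ h, zero_mul, zero_mul]
      · rw [not_le] at h
        have hyx : y ∈ ball x δ := by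
          rw [mem_ball, dist_comm, dist_eq_norm]
          exact h
        exact mul_le_mul_of_nonneg_left (hy hyx) (hb _).1
    have h5 := norm_integral_le_of_norm_le (hchii.mul_const (M * |t|)) h4
    rw [integral_mul_const, hchi1, one_mul] at h5
    rw [sub_zero, Real.norm_eq_abs t]
    exact h5
  have hle : ‖∫ y, fderiv ℝ (chi δ) (x + ((0 : ℝ) : ℂ) * w - y) w * Φ y w‖ ≤ M :=
    hder.le_of_lip' hM hbound
  have hNi : Integrable fun y => gchi δ (x - y) * (Φ y w : ℂ) * (starRingEnd ℂ) w := by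
    refine bint _ (((hgc.comp (continuous_const.sub continuous_id)).measurable.mul
        (Complex.measurable_ofReal.comp hφm)).mul_const _).aestronglyMeasurable (C / δ ^ 3) R'
        (fun y => ?_) fun y hy => ?_
    · rw [norm_mul, norm_mul, RCLike.norm_conj, hw, mul_one, Complex.norm_real,
        Real.norm_eq_abs]
      calc _ ≤ C / δ ^ 3 * 1 := mul_le_mul (hgb _) (hΦ1 y) (abs_nonneg _) (by positivity)
        _ = _ := mul_one _
    · change gchi δ (x - y) * (Φ y w : ℂ) * _ = 0
      rw [hR' y w hy, Complex.ofReal_zero, mul_zero, zero_mul]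
  have e1 : Nl Φ δ x w * (starRingEnd ℂ) w =
      ∫ y, gchi δ (x - y) * (Φ y w : ℂ) * (starRingEnd ℂ) w := by
    rw [integral_mul_const]
    rfl
  have e2 : (∫ y, gchi δ (x - y) * (Φ y w : ℂ) * (starRingEnd ℂ) w).re =
      ∫ y, (gchi δ (x - y) * (Φ y w : ℂ) * (starRingEnd ℂ) w).re := by
    have h := Complex.reCLM.integral_comp_comm hNi
    exact h.symm
  have e3 : (∫ y, (gchi δ (x - y) * (Φ y w : ℂ) * (starRingEnd ℂ) w).re) =
      ∫ y, fderiv ℝ (chi δ) (x + ((0 : ℝ) : ℂ) * w - y) w * Φ y w := by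
    refine integral_congr_ae (ae_of_all _ fun y => ?_)
    change (gchi δ (x - y) * (Φ y w : ℂ) * (starRingEnd ℂ) w).re =
      fderiv ℝ (chi δ) (x + ((0 : ℝ) : ℂ) * w - y) w * Φ y w
    rw [hlin, Complex.ofReal_zero, zero_mul, add_zero]
    have e3 : gchi δ (x - y) * (Φ y w : ℂ) * (starRingEnd ℂ) w =
        gchi δ (x - y) * (starRingEnd ℂ) w * (Φ y w : ℂ) := by ring
    rw [e3, Complex.re_mul_ofReal]
  rw [e1, e2, e3, ← Real.norm_eq_abs]
  exact hle

end Pool.Agent.H11.EG
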